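import Pool.Agent.Y885.PO4

set_option autoImplicit false

/-!
# The Poisson law for the number of primes, after the integers are moved by few elements of an arbitrary set

The conjectured distribution function of the normalised gaps between consecutive primes is `f(c) = 1 - exp (-c)`; it
corresponds to the Poisson law for the number of the primes in `[n, n + c log N)`, `n ≤ N`. Here every integer `h + j` is
moved by the sum of a few elements of an arbitrary set `A`; nothing is assumed but that `A` contains an element of every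
interval `[x, l x]`.
-/

namespace Pool.Agent.Results.MP_3499c5_nt.PerturbedPoisson

open Finset

/-- `P S h n y`: the number of the primes among the first `y` moved points `n + (h + j + ∑ a ∈ S j, a)`, `0 ≤ j < y` (for
`S j = ∅` the number of the primes in `[n + h, n + h + y)`). -/
def P (S : ℕ → Finset ℕ) (h n y : ℕ) : ℕ := ((range y).filter (fun j => (n + (h + j + ∑ a ∈ S j, a)).Prime)).card

/-- `atMost S h N y k`: the number of the `n`, `1 ≤ n ≤ N`, such that `P S h n y ≤ k`. -/
def atMost (S : ℕ → Finset ℕ) (h N y k : ℕ) : ℕ := ((Icc 1 N).filter (fun n => P S h n y ≤ k)).card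

/-- `pois k x`: the probability that a random variable with the Poisson law of mean `x` is at most `k`. -/
noncomputable def pois (k : ℕ) (x : ℝ) : ℝ := ∑ j ∈ range (k + 1), Real.exp (-x) * x ^ j / j.factorial

/-- For all `l ≥ 2` there is a constant `C` such that for all `H`, `B`, `Λ`, `k₀` and `ε > 0` there is an `N₀` with the
following property. Let `A` be an arbitrary set of integers which contains an element of every interval `[x, l x]`,
`x ≥ 1` (the constants do not depend on `A`), let `N ≥ N₀` and `0 ≤ h ≤ B N`. Then there are sets `S j`,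
`j = 0, 1, 2, ...`, of at most `C (log log N) ^ 2` elements of `A`, all between `log ^ H N` and `N / log ^ H N`, such that
for ALL `y ≤ Λ log N` and ALL `k ≤ k₀` the proportion of the `n ≤ N` for which at most `k` of the first `y` moved points
`n + h + j + ∑ S j` are prime differs from the corresponding probability for the Poisson law of mean `y / log N` by at
most `ε`. -/
theorem result (l : ℕ) (hl : 2 ≤ l) : ∃ C : ℝ, ∀ (H B Λ k₀ : ℕ) (ε : ℝ), 0 < ε → ∃ N₀ : ℕ,
    ∀ A : Set ℕ, (∀ x : ℕ, 1 ≤ x → ∃ a ∈ A, x ≤ a ∧ a ≤ l * x) →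
      ∀ N : ℕ, N₀ ≤ N → ∀ h : ℕ, h ≤ B * N →
        ∃ S : ℕ → Finset ℕ,
          (∀ j, ∀ a ∈ S j, a ∈ A ∧ Real.log N ^ H ≤ a ∧ (a : ℝ) ≤ N / Real.log N ^ H) ∧
          (∀ j, ((S j).card : ℝ) ≤ C * Real.log (Real.log N) ^ 2) ∧
          ∀ y : ℕ, (y : ℝ) ≤ Λ * Real.log N → ∀ k ≤ k₀, |(atMost S h N y k : ℝ) / N - pois k (y / Real.log N)| ≤ ε :=
  Pool.Agent.Y885.las_pois l hl

end Pool.Agent.Results.MP_3499c5_nt.PerturbedPoisson
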